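import Pool.Agent.Helper13.TR.StC

/-!
# Project TR (MP_a45945_gt): module ORD, the order of a space in which every point separates
-/

set_option autoImplicit false

namespace Pool.Agent.Helper72.TR

open Set Topology Pool.Agent.Helper13.TR

private theorem ord_seg {Y : Type} [TopologicalSpace Y] (f : ℝ → Y) (hf : Continuous f) (F : Set Y)
    (u v : ℝ) (huv : u ≤ v) (h : ∀ s ∈ Icc u v, f s ∈ F) : JoinedIn F (f u) (f v) := by
  have h1 : IsPathConnected (Icc u v) := (convex_Icc u v).isPathConnected ⟨u, left_mem_Icc.2 huv⟩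
  have h2 : IsPathConnected (f '' Icc u v) := h1.image hf
  have h3 := h2.joinedIn (f u) (mem_image_of_mem f (left_mem_Icc.2 huv)) (f v)
    (mem_image_of_mem f (right_mem_Icc.2 huv))
  refine h3.mono ?_
  rintro _ ⟨s, hs, rfl⟩
  exact h s hs

/-- (F6) if `p` separates `x` from `y` then `x` does not separate `y` from `p` -/
private theorem ord_F6 {Y : Type} [TopologicalSpace Y] [T2Space Y] [PathConnectedSpace Y]
    (p x y : Y) (hpx : p ≠ x) (hpy : p ≠ y) (h : ¬ JoinedIn {p}ᶜ x y) : JoinedIn {x}ᶜ y p := by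
  let δ : Path y p := PathConnectedSpace.somePath y p
  let f : ℝ → Y := δ.extend
  have hf : Continuous f := δ.continuous_extend
  have f0 : f 0 = y := δ.extend_zero
  have f1 : f 1 = p := δ.extend_one
  obtain ⟨v, ⟨hv1, hv2⟩, hv3⟩ :=
    (isCompact_Icc.inter_right ((isClosed_singleton (x := p)).preimage hf)).exists_isLeast
    (s := Icc (0 : ℝ) 1 ∩ f ⁻¹' {p}) ⟨1, ⟨by norm_num, le_rfl⟩, f1⟩
  have hv2' : f v = p := hv2
  have hbefore : ∀ s ∈ Icc (0 : ℝ) v, s ≠ v → JoinedIn {p}ᶜ y (f s) := by
    intro s hs hsv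
    have h1 := ord_seg f hf {p}ᶜ 0 s hs.1 (by
      intro t ht htp
      have : v ≤ t := hv3 ⟨⟨ht.1, ht.2.trans (hs.2.trans hv1.2)⟩, htp⟩
      exact hsv (le_antisymm hs.2 (this.trans ht.2)))
    rw [f0] at h1
    exact h1
  have h2 := ord_seg f hf {x}ᶜ 0 v hv1.1 (by
    intro s hs hsx
    have hsx' : f s = x := hsx
    rcases eq_or_ne s v with e | e
    · rw [e, hv2'] at hsx'
      exact hpx hsx'
    · have h3 := hbefore s hs e
      rw [hsx'] at h3
      exact h h3.symm)
  rw [f0, hv2'] at h2
  exact h2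

theorem hORD (hTRI : StTRI) : StORD := by
  intro Y _ _ _ _ h2a h2b h3
  classical
  have htri := hTRI Y h2a h3
  have irr : ∀ (z w : Y), ¬ JoinedIn {z}ᶜ z w := fun z w h => h.source_mem rfl
  have irr' : ∀ (z w : Y), ¬ JoinedIn {z}ᶜ w z := fun z w h => h.target_mem rfl
  have rf : ∀ (z w : Y), w ≠ z → JoinedIn {z}ᶜ w w := fun z w h => JoinedIn.refl h
  have ne1 : ∀ (z a b : Y), JoinedIn {z}ᶜ a b → a ≠ z := fun z a b h => h.source_mem
  obtain ⟨p⟩ : Nonempty Y := inferInstance
  obtain ⟨a₀, b₀, ha₀, hb₀, hab₀⟩ := h2b p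
  let J : Y → Y → Y → Prop := fun z a b => JoinedIn {z}ᶜ a b
  have sym : ∀ z a b, J z a b → J z b a := fun z a b h => JoinedIn.symm h
  have tr : ∀ z a b c, J z a b → J z b c → J z a c := fun z a b c h h' => JoinedIn.trans h h'
  have F6 : ∀ p x y, p ≠ x → p ≠ y → ¬ J p x y → J x y p := ord_F6
  let r : Y → Y → Prop := fun x y =>
    if x = p then J p y b₀ else if J p x b₀ then y ≠ x ∧ ¬ J x y p else J x y p
  have rp : ∀ y, r p y ↔ J p y b₀ := fun y => by simp only [r, if_true]
  have rR : ∀ x y, x ≠ p → J p x b₀ → (r x y ↔ y ≠ x ∧ ¬ J x y p) := fun x y h1 h2 => by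
    simp only [r, if_neg h1, if_pos h2]
  have rL : ∀ x y, x ≠ p → ¬ J p x b₀ → (r x y ↔ J x y p) := fun x y h1 h2 => by
    simp only [r, if_neg h1, if_neg h2]
  have hL : ∀ x, x ≠ p → ¬ J p x b₀ → J p x a₀ := by
    intro x h1 h2
    rcases h2a p x a₀ b₀ h1 ha₀ hb₀ with h | h | h
    · exact h
    · exact absurd h hab₀
    · exact absurd h h2
  -- a point not joined to `p` in `{x}ᶜ`
  have hfar : ∀ x, x ≠ p → ∃ z, z ≠ x ∧ ¬ J x z p := by
    intro x hx
    obtain ⟨a, b, ha, hb, hab⟩ := h2b x
    by_cases h : J x a p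
    · exact ⟨b, hb, fun h' => hab (tr x a p b h (sym _ _ _ h'))⟩
    · exact ⟨a, ha, h⟩
  -- Claim B
  have B : ∀ x, ∃ l ρ : Y, l ≠ x ∧ ρ ≠ x ∧ ¬ J x l ρ ∧ (∀ y, r x y ↔ J x y ρ) ∧
      ∀ y, r y x ↔ J x y l := by
    intro x
    rcases eq_or_ne x p with rfl | hxp
    · refine ⟨a₀, b₀, ha₀, hb₀, hab₀, rp, fun y => ?_⟩
      rcases eq_or_ne y x with rfl | hy
      · rw [rp]
        exact ⟨fun h => absurd h (irr _ _), fun h => absurd h (irr _ _)⟩
      · by_cases hyR : J x y b₀
        · rw [rR y x hy hyR]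
          constructor
          · rintro ⟨_, h⟩
            exact absurd (rf y x hy.symm) h
          · intro h
            exact absurd (tr _ _ _ _ (sym _ _ _ h) hyR) hab₀
        · rw [rL y x hy hyR]
          exact ⟨fun _ => hL y hy hyR, fun _ => rf y x hy.symm⟩
    · obtain ⟨z, hz, hzp⟩ := hfar x hxp
      by_cases hxR : J p x b₀
      · refine ⟨p, z, hxp.symm, hz, fun h => hzp (sym _ _ _ h), fun y => ?_, fun y => ?_⟩
        · rw [rR x y hxp hxR]
          constructor
          · rintro ⟨h1, h2⟩
            rcases h2a x y z p h1 hz hxp.symm with h | h | h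
            · exact h
            · exact absurd h hzp
            · exact absurd h h2
          · intro h
            exact ⟨ne1 _ _ _ h, fun h' => hzp (tr _ _ _ _ (sym _ _ _ h) h')⟩
        · rcases eq_or_ne y x with rfl | hyx
          · rw [rR y y hxp hxR]
            exact ⟨fun h => absurd rfl h.1, fun h => absurd h (irr _ _)⟩
          · rcases eq_or_ne y p with rfl | hyp
            · rw [rp]
              exact ⟨fun _ => rf _ _ hxp.symm, fun _ => hxR⟩
            · by_cases hyR : J p y b₀
              · rw [rR y x hyp hyR]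
                constructor
                · rintro ⟨_, h⟩
                  exact sym _ _ _ (F6 y x p hyx hyp h)
                · intro h
                  refine ⟨hyx.symm, fun h' => ?_⟩
                  rcases htri x y p hyx.symm hyp hxp with k | k | k
                  · exact k h
                  · exact k h'
                  · exact k (tr _ _ _ _ hxR (sym _ _ _ hyR))
              · rw [rL y x hyp hyR]
                have hs : ¬ J p x y := fun h => hyR (tr _ _ _ _ (sym _ _ _ h) hxR)
                have k1 : J x y p := F6 p x y hxp.symm hyp.symm hs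
                have k2 : J y x p := F6 p y x hyp.symm hxp.symm fun h => hs (sym _ _ _ h)
                exact ⟨fun _ => k1, fun _ => k2⟩
      · have hxL := hL x hxp hxR
        refine ⟨z, p, hz, hxp.symm, hzp, fun y => rL x y hxp hxR, fun y => ?_⟩
        rcases eq_or_ne y x with rfl | hyx
        · rw [rL y y hxp hxR]
          exact ⟨fun h => absurd h (irr _ _), fun h => absurd h (irr _ _)⟩
        · rcases eq_or_ne y p with rfl | hyp
          · rw [rp]
            exact ⟨fun h => absurd h hxR, fun h => absurd (sym _ _ _ h) hzp⟩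
          · by_cases hyR : J p y b₀
            · rw [rR y x hyp hyR]
              have hs : ¬ J p x y := fun h => hxR (tr _ _ _ _ h hyR)
              have k1 : J x y p := F6 p x y hxp.symm hyp.symm hs
              have k2 : J y x p := F6 p y x hyp.symm hxp.symm fun h => hs (sym _ _ _ h)
              exact ⟨fun h => absurd k2 h.2, fun h => absurd (tr _ _ _ _ (sym _ _ _ h) k1) hzp⟩
            · rw [rL y x hyp hyR]
              have hj : J p x y := tr _ _ _ _ hxL (sym _ _ _ (hL y hyp hyR))
              constructor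
              · intro h
                have h' : ¬ J x y p := by
                  intro h'
                  rcases htri x y p hyx.symm hyp hxp with k | k | k
                  · exact k h'
                  · exact k h
                  · exact k hj
                rcases h2a x y z p hyx hz hxp.symm with k | k | k
                · exact k
                · exact absurd k hzp
                · exact absurd k h'
              · intro h
                have h' : ¬ J x y p := fun h' => hzp (tr _ _ _ _ (sym _ _ _ h) h')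
                exact sym _ _ _ (F6 x y p hyx.symm hxp h')
  have hirr : ∀ x, ¬ r x x := by
    intro x h
    obtain ⟨l, ρ, _, _, _, h1, _⟩ := B x
    exact irr _ _ ((h1 x).1 h)
  have htot : ∀ x y, x ≠ y → r x y ∨ r y x := by
    intro x y hxy
    obtain ⟨l, ρ, hl, hρ, hn, h1, h2⟩ := B x
    rcases h2a x y l ρ hxy.symm hl hρ with h | h | h
    · exact Or.inr ((h2 y).2 h)
    · exact absurd h hn
    · exact Or.inl ((h1 y).2 h)
  have hexcl : ∀ x y, r x y → r y x → False := by
    intro x y h h'
    obtain ⟨l, ρ, hl, hρ, hn, h1, h2⟩ := B x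
    exact hn (tr _ _ _ _ (sym _ _ _ ((h2 y).1 h')) ((h1 y).1 h))
  have hne : ∀ x y, r x y → x ≠ y := fun x y h e => hirr x (by rw [← e] at h; exact h)
  have htr : ∀ x y z, r x y → r y z → r x z := by
    intro x y z hxy hyz
    have hzx : z ≠ x := fun e => hexcl x y hxy (e ▸ hyz)
    rcases htot x z hzx.symm with h | h
    · exact h
    · exfalso
      -- `z` and `y` are separated by `x`
      obtain ⟨l, ρ, hl, hρ, hn, h1, h2⟩ := B x
      have hs : ¬ J x y z := fun h' =>
        hn (tr _ _ _ _ (sym _ _ _ ((h2 z).1 h)) (tr _ _ _ _ (sym _ _ _ h') ((h1 y).1 hxy)))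
      have k : J y z x := F6 x y z (hne x y hxy) hzx.symm hs
      obtain ⟨l', ρ', hl', hρ', hn', h1', h2'⟩ := B y
      have k2 : J y z l' := tr _ _ _ _ k ((h2' x).1 hxy)
      exact hexcl y z hyz ((h2' z).2 k2)
  refine ⟨r, hirr, htr, htot, fun x => ?_, fun x => ?_, fun x y hxy => ?_⟩
  · obtain ⟨l, ρ, hl, hρ, hn, h1, h2⟩ := B x
    have hO : IsOpen ({x}ᶜ : Set Y) := isClosed_singleton.isOpen_compl
    constructor
    · have e : {y | r x y} = pathComponentIn {x}ᶜ ρ := by
        ext y
        exact (h1 y).trans ⟨fun h => sym _ _ _ h, fun h => sym _ _ _ h⟩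
      rw [e]
      exact hO.pathComponentIn ρ
    · have e : {y | r y x} = pathComponentIn {x}ᶜ l := by
        ext y
        exact (h2 y).trans ⟨fun h => sym _ _ _ h, fun h => sym _ _ _ h⟩
      rw [e]
      exact hO.pathComponentIn l
  · obtain ⟨l, ρ, hl, hρ, hn, h1, h2⟩ := B x
    exact ⟨⟨ρ, (h1 ρ).2 (rf _ _ hρ)⟩, l, (h2 l).2 (rf _ _ hl)⟩
  · obtain ⟨τ, t1, t2, t3⟩ := h3 x y (hne x y hxy)
    obtain ⟨l, ρ, hl, hρ, hn, h1, h2⟩ := B τ
    rcases htot x τ t1.symm with k | k
    · rcases htot τ y t2 with k' | k'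
      · exact ⟨τ, k, k'⟩
      · exact absurd (tr _ _ _ _ ((h2 x).1 k) (sym _ _ _ ((h2 y).1 k'))) t3
    · rcases htot τ y t2 with k' | k'
      · exact absurd (tr _ _ _ _ ((h1 x).1 k) (sym _ _ _ ((h1 y).1 k'))) t3
      · exact (hexcl x y hxy (htr y τ x k' k)).elim

end Pool.Agent.Helper72.TR
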