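import Pool.Agent.Helper13.TR.StC

/-!
# Project TR (MP_a45945_gt): module PSI, a chart from an order
-/

set_option autoImplicit false

namespace Pool.Agent.Helper72.TR

open Set Topology Pool.Agent.Helper13.TR

private theorem psi_aux {Y : Type} [TopologicalSpace Y] [LinearOrder Y] [PreconnectedSpace Y]
    (hop : ∀ x : Y, IsOpen {y | x < y} ∧ IsOpen {y | y < x}) (x : Y) (O : Set Y) (hO : IsOpen O)
    (hx : x ∈ O) (h1 : ∃ y, y < x) : ∃ y ∈ O, y < x := by
  by_contra hcon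
  push Not at hcon
  have e : {y | y < x}ᶜ = O ∪ {y | x < y} := by
    ext y
    constructor
    · intro hy
      rcases lt_or_eq_of_le (not_lt.1 hy) with h | h
      · exact Or.inr h
      · exact Or.inl (h ▸ hx)
    · rintro (hy | hy)
      · exact not_lt.2 (hcon y hy)
      · exact not_lt.2 (le_of_lt hy)
  have hcl : IsClopen {y | y < x} := ⟨⟨by rw [e]; exact hO.union (hop x).1⟩, (hop x).2⟩
  rcases isClopen_iff.1 hcl with h | h
  · obtain ⟨y, hy⟩ := h1
    have : y ∈ {y | y < x} := hy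
    rw [h] at this
    exact this
  · have : x ∈ {y | y < x} := by rw [h]; trivial
    exact lt_irrefl x this

private theorem psi_aux' {Y : Type} [TopologicalSpace Y] [LinearOrder Y] [PreconnectedSpace Y]
    (hop : ∀ x : Y, IsOpen {y | x < y} ∧ IsOpen {y | y < x}) (x : Y) (O : Set Y) (hO : IsOpen O)
    (hx : x ∈ O) (h1 : ∃ y, x < y) : ∃ y ∈ O, x < y := by
  by_contra hcon
  push Not at hcon
  have e : {y | x < y}ᶜ = O ∪ {y | y < x} := by
    ext y
    constructor
    · intro hy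
      rcases lt_or_eq_of_le (not_lt.1 hy) with h | h
      · exact Or.inr h
      · exact Or.inl (h ▸ hx)
    · rintro (hy | hy)
      · exact not_lt.2 (hcon y hy)
      · exact not_lt.2 (le_of_lt hy)
  have hcl : IsClopen {y | x < y} := ⟨⟨by rw [e]; exact hO.union (hop x).2⟩, (hop x).1⟩
  rcases isClopen_iff.1 hcl with h | h
  · obtain ⟨y, hy⟩ := h1
    have : y ∈ {y | x < y} := hy
    rw [h] at this
    exact this
  · have : x ∈ {y | x < y} := by rw [h]; trivial
    exact lt_irrefl x this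

private theorem psi_main {Y : Type} [TopologicalSpace Y] [LinearOrder Y] [PreconnectedSpace Y]
    [TopologicalSpace.SeparableSpace Y] [LocallyConnectedSpace Y] [Nonempty Y]
    (hop : ∀ x : Y, IsOpen {y | x < y} ∧ IsOpen {y | y < x})
    (hne : ∀ x : Y, (∃ y, x < y) ∧ ∃ y, y < x) (hden : ∀ x y : Y, x < y → ∃ z, x < z ∧ z < y) :
    ∃ f : Y → ℝ, IsOpenEmbedding f := by
  classical
  obtain ⟨D, hDc, hDd⟩ := TopologicalSpace.exists_countable_dense Y
  have : Countable D := hDc.to_subtype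
  have hup : ∀ y : Y, ∃ d : D, y < d := fun y => by
    obtain ⟨d, hd, hd2⟩ := hDd.exists_mem_open (hop y).1 (hne y).1
    exact ⟨⟨d, hd⟩, hd2⟩
  have hdn : ∀ y : Y, ∃ d : D, d < y := fun y => by
    obtain ⟨d, hd, hd2⟩ := hDd.exists_mem_open (hop y).2 (hne y).2
    exact ⟨⟨d, hd⟩, hd2⟩
  have hbt : ∀ x y : Y, x < y → ∃ d : D, x < d ∧ d < y := fun x y hxy => by
    obtain ⟨z, hz1, hz2⟩ := hden x y hxy
    obtain ⟨d, hd2, hd⟩ := hDd.exists_mem_open ((hop x).1.inter (hop y).2) ⟨z, hz1, hz2⟩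
    exact ⟨⟨d, hd2⟩, hd.1, hd.2⟩
  have i1 : DenselyOrdered D := ⟨fun a b hab => by
    obtain ⟨d, h1, h2⟩ := hbt a b hab
    exact ⟨d, h1, h2⟩⟩
  have i2 : NoMaxOrder D := ⟨fun a => by
    obtain ⟨d, h1⟩ := hup a
    exact ⟨d, h1⟩⟩
  have i3 : NoMinOrder D := ⟨fun a => by
    obtain ⟨d, h1⟩ := hdn a
    exact ⟨d, h1⟩⟩
  have i4 : Nonempty D := by
    obtain ⟨d, _⟩ := hup (Classical.arbitrary Y)
    exact ⟨d⟩
  obtain ⟨φ⟩ := Order.iso_of_countable_dense D ℚ
  let ψ : Y → ℝ := fun y => sSup {t : ℝ | ∃ d : D, (d : Y) < y ∧ ((φ d : ℚ) : ℝ) = t}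
  have hb : ∀ y : Y, ∀ d' : D, y < d' → ∀ t ∈ {t : ℝ | ∃ d : D, (d : Y) < y ∧ ((φ d : ℚ) : ℝ) = t},
      t ≤ ((φ d' : ℚ) : ℝ) := by
    rintro y d' hd' t ⟨d, hd, rfl⟩
    have h1 : d ≤ d' := le_of_lt (show (d : Y) < d' from hd.trans hd')
    exact_mod_cast φ.monotone h1
  have hbdd : ∀ y : Y, BddAbove {t : ℝ | ∃ d : D, (d : Y) < y ∧ ((φ d : ℚ) : ℝ) = t} := by
    intro y
    obtain ⟨d', hd'⟩ := hup y
    exact ⟨_, hb y d' hd'⟩
  have hnon : ∀ y : Y, {t : ℝ | ∃ d : D, (d : Y) < y ∧ ((φ d : ℚ) : ℝ) = t}.Nonempty := by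
    intro y
    obtain ⟨d', hd'⟩ := hdn y
    exact ⟨_, d', hd', rfl⟩
  have hA : ∀ (a : ℝ) (y : Y), a < ψ y ↔ ∃ d : D, (d : Y) < y ∧ a < ((φ d : ℚ) : ℝ) := by
    intro a y
    constructor
    · intro h
      obtain ⟨t, ⟨d, hd, rfl⟩, ht⟩ := (lt_csSup_iff (hbdd y) (hnon y)).1 h
      exact ⟨d, hd, ht⟩
    · rintro ⟨d, hd, ht⟩
      exact (lt_csSup_iff (hbdd y) (hnon y)).2 ⟨_, ⟨d, hd, rfl⟩, ht⟩
  have hB : ∀ (a : ℝ) (y : Y), ψ y < a ↔ ∃ d : D, y < (d : Y) ∧ ((φ d : ℚ) : ℝ) < a := by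
    intro a y
    constructor
    · intro h
      obtain ⟨q, hq1, hq2⟩ := exists_rat_btwn h
      obtain ⟨q', hq1', hq2'⟩ := exists_rat_btwn hq1
      have h1 : ∀ q : ℚ, ψ y < q → y ≤ (φ.symm q : D) := by
        intro q hq
        by_contra hcon
        have : (q : ℝ) ≤ ψ y := le_csSup (hbdd y) ⟨φ.symm q, not_le.1 hcon, by simp⟩
        linarith
      refine ⟨φ.symm q, ?_, by simpa using hq2⟩
      have h2 : φ.symm q' < φ.symm q := φ.symm.strictMono (by exact_mod_cast hq2')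
      exact lt_of_le_of_lt (h1 q' hq1') h2
    · rintro ⟨d, hd, ht⟩
      exact lt_of_le_of_lt (csSup_le (hnon y) (hb y d hd)) ht
  have hmono : ∀ x y : Y, x < y → ψ x < ψ y := by
    intro x y hxy
    obtain ⟨d, h1, h2⟩ := hbt x y hxy
    obtain ⟨d', h1', h2'⟩ := hbt d y h2
    have h3 : ((φ d : ℚ) : ℝ) < ((φ d' : ℚ) : ℝ) := by exact_mod_cast φ.strictMono (show d < d' from h1')
    rw [hB]
    exact ⟨d, h1, (hA _ _).2 ⟨d', h2', h3⟩⟩
  have hinj : Function.Injective ψ := by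
    intro x y hxy
    rcases lt_trichotomy x y with h | h | h
    · exact absurd hxy (hmono x y h).ne
    · exact h
    · exact absurd hxy (hmono y x h).ne'
  have hcont : Continuous ψ := by
    rw [OrderTopology.continuous_iff]
    intro a
    constructor
    · have e : ψ ⁻¹' Ioi a = ⋃ d : D, ⋃ _ : a < ((φ d : ℚ) : ℝ), {y | (d : Y) < y} := by
        ext y
        simp only [mem_preimage, mem_Ioi, mem_iUnion, mem_ofPred_eq, exists_prop]
        rw [hA]
        constructor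
        · rintro ⟨d, h1, h2⟩
          exact ⟨d, h2, h1⟩
        · rintro ⟨d, h1, h2⟩
          exact ⟨d, h2, h1⟩
      rw [e]
      exact isOpen_iUnion fun d => isOpen_iUnion fun _ => (hop d).1
    · have e : ψ ⁻¹' Iio a = ⋃ d : D, ⋃ _ : ((φ d : ℚ) : ℝ) < a, {y | y < (d : Y)} := by
        ext y
        simp only [mem_preimage, mem_Iio, mem_iUnion, mem_ofPred_eq, exists_prop]
        rw [hB]
        constructor
        · rintro ⟨d, h1, h2⟩
          exact ⟨d, h2, h1⟩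
        · rintro ⟨d, h1, h2⟩
          exact ⟨d, h2, h1⟩
      rw [e]
      exact isOpen_iUnion fun d => isOpen_iUnion fun _ => (hop d).2
  refine ⟨ψ, IsOpenEmbedding.of_continuous_injective_isOpenMap hcont hinj ?_⟩
  rw [isOpenMap_iff_nhds_le]
  intro x U hU
  rw [Filter.mem_map] at hU
  obtain ⟨V, hV1, hV2, hV3, hV4⟩ :=
    (locallyConnectedSpace_iff_subsets_isOpen_isConnected.1 inferInstance) x _ hU
  obtain ⟨y, hy, hyx⟩ := psi_aux hop x V hV2 hV3 (hne x).2
  obtain ⟨z, hz, hxz⟩ := psi_aux' hop x V hV2 hV3 (hne x).1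
  have hpc : IsPreconnected (ψ '' V) := hV4.isPreconnected.image ψ hcont.continuousOn
  have h1 : Icc (ψ y) (ψ z) ⊆ ψ '' V := hpc.Icc_subset (mem_image_of_mem _ hy) (mem_image_of_mem _ hz)
  refine Filter.mem_of_superset (Icc_mem_nhds (hmono y x hyx) (hmono x z hxz)) (h1.trans ?_)
  rintro _ ⟨w, hw, rfl⟩
  exact hV1 hw

theorem hPSI : StPSI := by
  intro Y _ _ _ _ _ r hirr htr htot hop hne hden
  classical
  rcases isEmpty_or_nonempty Y with hY | hY
  · refine ⟨fun _ => 0, IsOpenEmbedding.of_continuous_injective_isOpenMap continuous_const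
      (fun x => (hY.false x).elim) fun U _ => ?_⟩
    have e : U = ∅ := Set.eq_empty_of_isEmpty U
    rw [e, image_empty]
    exact isOpen_empty
  · have hst : IsStrictTotalOrder Y r :=
      { trichotomous := fun a b h1 h2 => by
          by_contra h
          rcases htot a b h with h3 | h3
          · exact h1 h3
          · exact h2 h3
        irrefl := hirr
        trans := htr }
    let _ : LinearOrder Y := linearOrderOfSTO r
    exact psi_main hop hne hden

end Pool.Agent.Helper72.TR
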