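import Pool.Agent.Helper13.TR.StC

/-!
# Project TR (MP_a45945_gt): module TRI, of three points one separates the other two
-/

set_option autoImplicit false

namespace Pool.Agent.Helper72.TR

open Set Topology Pool.Agent.Helper13.TR

private theorem tri_seg {Y : Type} [TopologicalSpace Y] (f : ℝ → Y) (hf : Continuous f) (F : Set Y)
    (u v : ℝ) (huv : u ≤ v) (h : ∀ s ∈ Icc u v, f s ∈ F) : JoinedIn F (f u) (f v) := by
  have h1 : IsPathConnected (Icc u v) := (convex_Icc u v).isPathConnected ⟨u, left_mem_Icc.2 huv⟩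
  have h2 : IsPathConnected (f '' Icc u v) := h1.image hf
  have h3 := h2.joinedIn (f u) (mem_image_of_mem f (left_mem_Icc.2 huv)) (f v)
    (mem_image_of_mem f (right_mem_Icc.2 huv))
  refine h3.mono ?_
  rintro _ ⟨s, hs, rfl⟩
  exact h s hs

private theorem tri_cl {Y : Type} [TopologicalSpace Y] [T2Space Y] (a b : Y) :
    IsClosed {z : Y | ¬ JoinedIn {z}ᶜ a b} := by
  rw [← isOpen_compl_iff, isOpen_iff_mem_nhds]
  intro z hz
  have hz' : JoinedIn {z}ᶜ a b := by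
    by_contra h
    exact hz h
  have hcl : IsClosed (range hz'.somePath) := (isCompact_range hz'.somePath.continuous).isClosed
  have hmem : z ∈ (range hz'.somePath)ᶜ := by
    rintro ⟨t, ht⟩
    exact hz'.somePath_mem t ht
  refine Filter.mem_of_superset (hcl.isOpen_compl.mem_nhds hmem) ?_
  intro w hw h
  apply h
  exact ⟨hz'.somePath, fun t ht => hw ⟨t, ht⟩⟩

/-- a path from `x` to `p` which avoids `τ` avoids every point which is not joined to `x` in `{τ}ᶜ` -/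
private theorem tri_av {Y : Type} [TopologicalSpace Y] (x p b τ : Y) (h : JoinedIn {τ}ᶜ x p)
    (h' : ¬ JoinedIn {τ}ᶜ x b) : JoinedIn {b}ᶜ x p := by
  refine ⟨h.somePath, fun t ht => h' ?_⟩
  have ht' : h.somePath t = b := ht
  have h1 := tri_seg h.somePath.extend h.somePath.continuous_extend {τ}ᶜ 0 t t.2.1 (by
    intro s hs
    rw [Path.extend_apply _ ⟨hs.1, hs.2.trans t.2.2⟩]
    exact h.somePath_mem _)
  rw [Path.extend_zero, Path.extend_apply _ t.2] at h1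
  rw [← ht']
  exact h1

theorem hTRI : StTRI := by
  intro Y _ _ _ h2a h3 x y p hxy hyp hxp
  by_contra hcon
  push Not at hcon
  obtain ⟨jx, jy, jp⟩ := hcon
  -- the two closed sets
  let Cx : Set Y := {z | ¬ JoinedIn {z}ᶜ x y} ∩ {z | ¬ JoinedIn {z}ᶜ x p}
  let Cp : Set Y := {z | ¬ JoinedIn {z}ᶜ p x} ∩ {z | ¬ JoinedIn {z}ᶜ p y}
  have hCx : IsClosed Cx := (tri_cl x y).inter (tri_cl x p)
  have hCp : IsClosed Cp := (tri_cl p x).inter (tri_cl p y)
  have self1 : ∀ (z w : Y) (F : Set Y), JoinedIn F z w → z ∈ F := fun z w F h => h.source_mem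
  have hxCx : x ∈ Cx := ⟨fun h => self1 _ _ _ h rfl, fun h => self1 _ _ _ h rfl⟩
  have hpCp : p ∈ Cp := ⟨fun h => self1 _ _ _ h rfl, fun h => self1 _ _ _ h rfl⟩
  have hyCx : y ∉ Cx := fun h => h.2 jy
  have hpCx : p ∉ Cx := fun h => h.1 jp
  have hxCp : x ∉ Cp := fun h => h.2 jx.symm
  have hyCp : y ∉ Cp := fun h => h.1 jy.symm
  have hdis : ∀ z, z ∈ Cx → z ∈ Cp → False := by
    intro z hz1 hz2
    have n1 : x ≠ z := fun h => hxCp (h ▸ hz2)
    have n2 : y ≠ z := fun h => hyCx (h ▸ hz1)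
    have n3 : p ≠ z := fun h => hpCx (h ▸ hz1)
    rcases h2a z x y p n1 n2 n3 with h | h | h
    · exact hz1.1 h
    · exact hz2.2 h.symm
    · exact hz1.2 h
  have hcov : ∀ z, ¬ JoinedIn {z}ᶜ x p → z ∈ Cx ∨ z ∈ Cp := by
    intro z hz
    by_cases h : JoinedIn {z}ᶜ x y
    · right
      exact ⟨fun h' => hz h'.symm, fun h' => hz (h.trans h'.symm)⟩
    · left
      exact ⟨h, hz⟩
  -- a path from `x` to `p`
  let δ : Path x p := PathConnectedSpace.somePath x p
  let f : ℝ → Y := δ.extend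
  have hf : Continuous f := δ.continuous_extend
  have f0 : f 0 = x := δ.extend_zero
  have f1 : f 1 = p := δ.extend_one
  obtain ⟨v, ⟨hv1, hv2⟩, hv3⟩ := (isCompact_Icc.inter_right (hCp.preimage hf)).exists_isLeast
    (s := Icc (0 : ℝ) 1 ∩ f ⁻¹' Cp) ⟨1, ⟨by norm_num, le_rfl⟩, by show f 1 ∈ Cp; rw [f1]; exact hpCp⟩
  obtain ⟨u, ⟨hu1, hu2⟩, hu3⟩ := (isCompact_Icc.inter_right (hCx.preimage hf)).exists_isGreatest
    (s := Icc (0 : ℝ) v ∩ f ⁻¹' Cx) ⟨0, ⟨le_rfl, hv1.1⟩, by show f 0 ∈ Cx; rw [f0]; exact hxCx⟩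
  have hab : f u ≠ f v := fun h => hdis (f u) hu2 (by rw [h]; exact hv2)
  obtain ⟨τ, t1, t2, t3⟩ := h3 (f u) (f v) hab
  -- `τ` lies on the path between `u` and `v`
  obtain ⟨w, hw, hwτ⟩ : ∃ w ∈ Icc u v, f w = τ := by
    by_contra hno
    push Not at hno
    exact t3 (tri_seg f hf {τ}ᶜ u v hu1.2 fun s hs => hno s hs)
  have wu : u < w := lt_of_le_of_ne hw.1 fun h => t1 (by rw [← hwτ, h])
  have wv : w < v := lt_of_le_of_ne hw.2 fun h => t2 (by rw [← hwτ, h])
  have hτx : τ ∉ Cx := by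
    intro h
    have : w ≤ u := hu3 ⟨⟨hu1.1.trans wu.le, wv.le⟩, by show f w ∈ Cx; rw [hwτ]; exact h⟩
    linarith
  have hτp : τ ∉ Cp := by
    intro h
    have : v ≤ w := hv3 ⟨⟨hu1.1.trans wu.le, wv.le.trans hv1.2⟩, by show f w ∈ Cp; rw [hwτ]; exact h⟩
    linarith
  have jτ : JoinedIn {τ}ᶜ x p := by
    by_contra h
    rcases hcov τ h with h | h
    · exact hτx h
    · exact hτp h
  have nx : x ≠ τ := fun h => hτx (h ▸ hxCx)
  rcases h2a τ (f u) (f v) x t1.symm t2.symm nx with h | h | h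
  · exact t3 h
  · -- `b` joined to `x`
    have h' : ¬ JoinedIn {τ}ᶜ x (f u) := fun h4 => t3 (h4.symm.trans h.symm)
    exact hu2.2 (tri_av x p (f u) τ jτ h')
  · have h' : ¬ JoinedIn {τ}ᶜ x (f v) := fun h4 => t3 (h.trans h4)
    exact hv2.1 (tri_av x p (f v) τ jτ h').symm

end Pool.Agent.Helper72.TR
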